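import Pool.Agent.H798.BV.Stm6

set_option autoImplicit false

/-! (S4) from (SB), (TR), (LB): small `a`, `K/√m ≤ |s'|`, `1/320 ≤ |Y|`. -/

namespace Pool.Agent.H874.BV

open Pool.Agent.H798.BV Filter Topology

theorem s4_fil {m : ℕ} (L : ℝ) (l : Fin m → ℂ) {ω : ℂ} (hω : ‖ω‖ = 1) :
    Finset.univ.filter (fun k => ¬ L < ‖ω * l k‖) = Finset.univ.filter (fun k => ¬ L < ‖l k‖) := by
  simp only [norm_mul, hω, one_mul]

theorem s4_bB {m : ℕ} (L : ℝ) (l : Fin m → ℂ) {ω : ℂ} (hω : ‖ω‖ = 1) :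
    bB L (fun k => ω * l k) = bB L l := by
  unfold bB
  simp only [norm_mul, hω, one_mul]

theorem s4_sR {m : ℕ} (L : ℝ) (l : Fin m → ℂ) {ω : ℂ} (hω : ‖ω‖ = 1) :
    sR L (fun k => ω * l k) = ω * sR L l := by
  unfold sR
  simp only [norm_mul, hω, one_mul]
  rw [← Finset.mul_sum, mul_div_assoc]

theorem s4_yR {m : ℕ} (L : ℝ) (l : Fin m → ℂ) {ω : ℂ} (hω : ‖ω‖ = 1) :
    yR L (fun k => ω * l k) = ω ^ 2 * yR L l := by
  unfold yR
  simp only [norm_mul, hω, one_mul, mul_pow]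
  rw [← Finset.mul_sum, mul_div_assoc]

theorem s4_sR_le {m : ℕ} (hm : 1 ≤ m) (L : ℝ) (l : Fin m → ℂ) (hl : ∑ k, ‖l k‖ ≤ m) :
    ‖sR L l‖ ≤ 1 := by
  have hm0 : (0 : ℝ) < m := by exact_mod_cast hm
  unfold sR
  rw [norm_div, Complex.norm_natCast, div_le_one hm0]
  refine (norm_sum_le _ _).trans (le_trans ?_ hl)
  exact Finset.sum_le_sum_of_subset_of_nonneg (Finset.filter_subset _ _)
    fun _ _ _ => norm_nonneg _

theorem s4_yR_le {m : ℕ} (hm : 1 ≤ m) (l : Fin m → ℂ) (hl : ∑ k, ‖l k‖ ≤ m) :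
    ‖yR 4 l‖ ≤ 4 := by
  have hm0 : (0 : ℝ) < m := by exact_mod_cast hm
  unfold yR
  rw [norm_div, Complex.norm_natCast, div_le_iff₀ hm0]
  calc ‖∑ k ∈ Finset.univ.filter (fun k => ¬ 4 < ‖l k‖), l k ^ 2‖
      ≤ ∑ k ∈ Finset.univ.filter (fun k => ¬ 4 < ‖l k‖), ‖l k ^ 2‖ := norm_sum_le _ _
    _ ≤ ∑ k ∈ Finset.univ.filter (fun k => ¬ 4 < ‖l k‖), 4 * ‖l k‖ := by
        refine Finset.sum_le_sum fun k hk => ?_
        have h4 : ‖l k‖ ≤ 4 := not_lt.1 (Finset.mem_filter.1 hk).2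
        rw [norm_pow, sq]
        exact mul_le_mul_of_nonneg_right h4 (norm_nonneg _)
    _ ≤ ∑ k, 4 * ‖l k‖ := Finset.sum_le_sum_of_subset_of_nonneg (Finset.filter_subset _ _)
        fun _ _ _ => by positivity
    _ = 4 * ∑ k, ‖l k‖ := by rw [Finset.mul_sum]
    _ ≤ 4 * m := by linarith

/-- the choice of the direction, after a rotation with `Y > 0` -/
theorem s4_rot (s : ℂ) (hs : 0 ≤ s.re) :
    ∃ ω : ℂ, ‖ω‖ = 1 ∧ ‖s‖ / 2 ≤ (ω * s).re ∧ 1 / 2 ≤ (ω ^ 2).re := by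
  by_cases h : ‖s‖ / 2 ≤ s.re
  · refine ⟨1, norm_one, ?_, ?_⟩
    · rw [one_mul]; exact h
    · rw [one_pow, Complex.one_re]; norm_num
  · rw [not_le] at h
    obtain ⟨σ, hσ, hσs⟩ : ∃ σ : ℝ, σ ^ 2 = 1 ∧ σ * s.im = |s.im| := by
      rcases le_total 0 s.im with h0 | h0
      · exact ⟨1, by norm_num, by rw [one_mul, abs_of_nonneg h0]⟩
      · exact ⟨-1, by norm_num, by rw [neg_one_mul, abs_of_nonpos h0]⟩
    have h3 : √3 ^ 2 = (3 : ℝ) := Real.sq_sqrt (by norm_num)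
    have h30 : (0 : ℝ) ≤ √3 := Real.sqrt_nonneg 3
    have h31 : (1 : ℝ) ≤ √3 := by nlinarith
    have h32 : √3 ≤ (2 : ℝ) := by nlinarith
    have hnS : ‖s‖ ^ 2 = s.re ^ 2 + s.im ^ 2 := by
      rw [Complex.sq_norm, Complex.normSq_apply]
      ring
    have hS0 : 0 ≤ ‖s‖ := norm_nonneg s
    have hy : ‖s‖ - s.re / 2 ≤ |s.im| := by
      refine abs_le_of_sq_le_sq' ?_ (abs_nonneg _) |>.2
      rw [sq_abs]
      nlinarith
    have hre : ((⟨√3 / 2, -(σ / 2)⟩ : ℂ) * s).re = √3 / 2 * s.re + |s.im| / 2 := by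
      rw [Complex.mul_re, ← hσs]
      ring
    have hm1 : ‖s‖ / 2 ≤ ((⟨√3 / 2, -(σ / 2)⟩ : ℂ) * s).re := by
      rw [hre]
      nlinarith
    refine ⟨⟨√3 / 2, -(σ / 2)⟩, ?_, hm1, ?_⟩
    · have h4 : ‖(⟨√3 / 2, -(σ / 2)⟩ : ℂ)‖ ^ 2 = 1 := by
        rw [Complex.sq_norm, Complex.normSq_apply]
        show √3 / 2 * (√3 / 2) + -(σ / 2) * -(σ / 2) = 1
        nlinarith
      have h5 := norm_nonneg (⟨√3 / 2, -(σ / 2)⟩ : ℂ)
      nlinarith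
    · rw [sq, Complex.mul_re]
      show 1 / 2 ≤ √3 / 2 * (√3 / 2) - -(σ / 2) * -(σ / 2)
      nlinarith

/-- the choice of the direction -/
theorem s4_dir (s Y : ℂ) (hY : Y ≠ 0) :
    ∃ ω : ℂ, ‖ω‖ = 1 ∧ ‖s‖ / 2 ≤ (ω * s).re ∧ ‖Y‖ / 2 ≤ (ω ^ 2 * Y).re := by
  have hY0 : 0 < ‖Y‖ := norm_pos_iff.2 hY
  -- a square root
  obtain ⟨η₀, hη₀⟩ : ∃ η : ℂ, η ^ 2 = (starRingEnd ℂ) Y / (‖Y‖ : ℂ) := by
    obtain ⟨η, hη⟩ := IsAlgClosed.exists_pow_nat_eq ((starRingEnd ℂ) Y / (‖Y‖ : ℂ)) (n := 2) two_pos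
    exact ⟨η, hη⟩
  obtain ⟨η, hη, hηs⟩ : ∃ η : ℂ, η ^ 2 = (starRingEnd ℂ) Y / (‖Y‖ : ℂ) ∧ 0 ≤ (η * s).re := by
    rcases le_total 0 (η₀ * s).re with h | h
    · exact ⟨η₀, hη₀, h⟩
    · refine ⟨-η₀, by rw [neg_sq, hη₀], ?_⟩
      rw [neg_mul, Complex.neg_re]
      linarith
  have hηn : ‖η‖ = 1 := by
    have h1 : ‖η‖ ^ 2 = 1 := by
      rw [← norm_pow, hη, norm_div, RCLike.norm_conj, Complex.norm_real, Real.norm_eq_abs,
        abs_of_pos hY0, div_self hY0.ne']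
    have h5 := norm_nonneg η
    nlinarith
  have hηY : η ^ 2 * Y = (‖Y‖ : ℂ) := by
    have h0 : (‖Y‖ : ℂ) ≠ 0 := by exact_mod_cast hY0.ne'
    rw [hη, div_mul_eq_mul_div, mul_comm, Complex.mul_conj, Complex.normSq_eq_norm_sq]
    push_cast
    rw [sq, mul_div_assoc, div_self h0, mul_one]
  obtain ⟨ω, h1, h2, h3⟩ := s4_rot (η * s) hηs
  refine ⟨ω * η, by rw [norm_mul, h1, hηn, one_mul], ?_, ?_⟩
  · rw [norm_mul, hηn, one_mul, ← mul_assoc] at h2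
    exact h2
  · have e : (ω * η) ^ 2 * Y = ω ^ 2 * (‖Y‖ : ℂ) := by
      rw [mul_pow, mul_assoc, hηY]
    rw [e, Complex.re_mul_ofReal]
    nlinarith

/-- `|e^ζ - 1| ≤ |ζ|` for `Re ζ ≤ 0` -/
theorem s4_exp (ζ : ℂ) (h : ζ.re ≤ 0) : ‖Complex.exp ζ - 1‖ ≤ ‖ζ‖ := by
  have hconv : Convex ℝ {z : ℂ | z.re ≤ 0} := convex_halfSpace_re_le 0
  have key := hconv.norm_image_sub_le_of_norm_deriv_le (f := Complex.exp) (C := 1)
    (x := 0) (y := ζ) (fun z _ => Complex.differentiableAt_exp) (fun z hz => by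
      rw [Complex.deriv_exp, Complex.norm_exp]
      exact Real.exp_le_one_iff.2 hz) (by simp) h
  simpa using key

theorem t_S4 (h1 : S_SB) (h2 : S_TR) (h3 : S_LB) : S_S4 := by
  -- constants
  obtain ⟨y, hy⟩ : ∃ y : ℝ, y = 1 / 640 := ⟨_, rfl⟩
  obtain ⟨ρ, hρ⟩ : ∃ ρ : ℝ, ρ = y / 32 := ⟨_, rfl⟩
  have hy0 : 0 < y := by rw [hy]; norm_num
  have hρ0 : 0 < ρ := by rw [hρ]; positivity
  have hρ1 : ρ ≤ 1 / 16 := by rw [hρ, hy]; norm_num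
  have hr0 : 0 < ρ ^ 2 * y / 1152 := by positivity
  have hr1 : ρ ^ 2 * y / 1152 ≤ 3 / 16 := by rw [hρ, hy]; norm_num
  have hc1 : 0 < ρ * 182 / 8 := by positivity
  have hc2 : 0 < ρ ^ 2 * y / 8 := by positivity
  have hlim1 : Tendsto (fun m : ℕ => Real.exp (-(ρ * 182 / 8 * √(m : ℝ)))) atTop (𝓝 0) :=
    Real.tendsto_exp_neg_atTop_nhds_zero.comp
      ((Real.tendsto_sqrt_atTop.comp tendsto_natCast_atTop_atTop).const_mul_atTop hc1)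
  have hlim2 : Tendsto (fun m : ℕ => Real.exp (-(ρ ^ 2 * y / 8 * (m : ℝ)))) atTop (𝓝 0) :=
    Real.tendsto_exp_neg_atTop_nhds_zero.comp
      (tendsto_natCast_atTop_atTop.const_mul_atTop hc2)
  obtain ⟨N, hN⟩ := eventually_atTop.1 ((hlim1.eventually (gt_mem_nhds
    (show (0 : ℝ) < 1 / 64 by norm_num))).and
    (hlim2.eventually (gt_mem_nhds (show (0 : ℝ) < 1 / 12 by norm_num))))
  refine ⟨182, ρ ^ 2 * y / 1152, by norm_num, hr0, N, fun m l a hm hm1 hH ha hKs hY => ?_⟩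
  obtain ⟨hN1, hN2⟩ := hN m hm
  have hm0 : (0 : ℝ) < m := by exact_mod_cast hm1
  have hsm : √(m : ℝ) ^ 2 = m := Real.sq_sqrt hm0.le
  have hsm0 : 0 < √(m : ℝ) := Real.sqrt_pos.2 hm0
  obtain ⟨hb, hq, -⟩ := h1 m l a hm1 hH
  have ha0 := hH.pos
  -- the mean
  have hS1 : ‖sR 4 l‖ ≤ 1 := s4_sR_le hm1 4 l hH.mean
  have hYne : yR 4 l ≠ 0 := by
    intro h0
    rw [h0, norm_zero] at hY
    norm_num at hY
  obtain ⟨ω, hω, hω1, hω3⟩ := s4_dir (sR 4 l) (yR 4 l) hYne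
  obtain ⟨S, hS⟩ : ∃ S : ℝ, S = ‖sR 4 l‖ := ⟨_, rfl⟩
  have hreS' : (sR 4 l).re ≤ S := by rw [hS]; exact (le_abs_self _).trans (Complex.abs_re_le_norm _)
  rw [← hS] at hS1 hω1 hKs hq
  have hS0 : 0 < S := by
    by_contra hcon
    rw [not_lt] at hcon
    have := mul_nonpos_of_nonneg_of_nonpos hsm0.le hcon
    linarith
  obtain ⟨x, hx⟩ : ∃ x : ℝ, x = (ω * sR 4 l).re := ⟨_, rfl⟩
  rw [← hx] at hω1
  have hx0 : 0 < x := by linarith
  have hsR := s4_sR 4 l hω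
  have hbB := s4_bB 4 l hω
  have hyR := s4_yR 4 l hω
  have hnS : ‖sR 4 (fun k => ω * l k)‖ = S := by
    rw [hsR, norm_mul, hω, one_mul, hS]
  have hreS : (sR 4 (fun k => ω * l k)).re = x := by rw [hsR, hx]
  have hYt : y ≤ (yR 4 (fun k => ω * l k)).re := by
    rw [hyR]
    refine le_trans ?_ hω3
    rw [hy]
    linarith
  have hlt : ∑ k, ‖ω * l k‖ ≤ m := by
    refine le_trans (le_of_eq ?_) hH.mean
    exact Finset.sum_congr rfl fun k _ => by rw [norm_mul, hω, one_mul]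
  have hYn : ‖yR 4 (fun k => ω * l k)‖ ≤ 4 := s4_yR_le hm1 _ hlt
  -- the expansion
  have hTR : ∀ τ : ℝ, 0 ≤ τ → τ ≤ ρ → ∃ ζ : ℂ, ‖ζ‖ ≤ 4 * m * τ ^ 2 ∧ ζ.re ≤ -(m * τ ^ 2 * y / 4) ∧
      ∏ k ∈ Finset.univ.filter (fun k => ¬ 4 < ‖ω * l k‖), (1 - (τ : ℂ) * (ω * l k)) =
        Complex.exp (-((m * τ : ℝ) * sR 4 (fun k => ω * l k))) * Complex.exp ζ := by
    intro τ hτ0 hτ1
    have hnτ : ‖(τ : ℂ)‖ = τ := by rw [Complex.norm_real, Real.norm_eq_abs, abs_of_nonneg hτ0]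
    obtain ⟨E, hE1, hE2⟩ := h2 m (fun k => ω * l k)
      (Finset.univ.filter (fun k => ¬ 4 < ‖ω * l k‖)) 4 (τ : ℂ) (by norm_num)
      (fun k hk => not_lt.1 (Finset.mem_filter.1 hk).2)
      ((Finset.sum_le_sum_of_subset_of_nonneg (Finset.filter_subset _ _)
        fun _ _ _ => norm_nonneg _).trans hlt)
      (by rw [hnτ]; linarith)
    rw [hnτ] at hE1
    have hmc : (m : ℂ) ≠ 0 := by exact_mod_cast hm0.ne'
    refine ⟨-((m * τ ^ 2 / 2 : ℝ) : ℂ) * yR 4 (fun k => ω * l k) + E, ?_, ?_, ?_⟩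
    · have e1 : ‖-((m * τ ^ 2 / 2 : ℝ) : ℂ) * yR 4 (fun k => ω * l k)‖ ≤ m * τ ^ 2 / 2 * 4 := by
        rw [norm_mul, norm_neg, Complex.norm_real, Real.norm_eq_abs, abs_of_nonneg (by positivity)]
        exact mul_le_mul_of_nonneg_left hYn (by positivity)
      have e2 : m * τ ^ 3 * 4 ^ 2 / 2 ≤ 2 * m * τ ^ 2 := by
        have e3 : m * τ ^ 3 * 4 ^ 2 / 2 = (8 * τ) * (m * τ ^ 2) := by ring
        rw [e3]
        have e4 : 8 * τ ≤ 2 := by linarith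
        have e5 : 0 ≤ m * τ ^ 2 := by positivity
        nlinarith
      calc ‖-((m * τ ^ 2 / 2 : ℝ) : ℂ) * yR 4 (fun k => ω * l k) + E‖
          ≤ ‖-((m * τ ^ 2 / 2 : ℝ) : ℂ) * yR 4 (fun k => ω * l k)‖ + ‖E‖ := norm_add_le _ _
        _ ≤ m * τ ^ 2 / 2 * 4 + m * τ ^ 3 * 4 ^ 2 / 2 := add_le_add e1 hE1
        _ ≤ 4 * m * τ ^ 2 := by linarith
    · have e0 : (-((m * τ ^ 2 / 2 : ℝ) : ℂ) * yR 4 (fun k => ω * l k) + E).re =
          -(m * τ ^ 2 / 2) * (yR 4 (fun k => ω * l k)).re + E.re := by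
        rw [Complex.add_re, ← Complex.ofReal_neg, Complex.re_ofReal_mul]
      rw [e0]
      have e1 : E.re ≤ m * τ ^ 3 * 4 ^ 2 / 2 :=
        (le_abs_self _).trans ((Complex.abs_re_le_norm _).trans hE1)
      have e3 : m * τ ^ 3 * 4 ^ 2 / 2 = (8 * τ) * (m * τ ^ 2) := by ring
      have e4 : 8 * τ ≤ y / 4 := by
        have : τ ≤ y / 32 := by rw [← hρ]; exact hτ1
        linarith
      have e5 : 0 ≤ m * τ ^ 2 := by positivity
      have e6 : (8 * τ) * (m * τ ^ 2) ≤ y / 4 * (m * τ ^ 2) := mul_le_mul_of_nonneg_right e4 e5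
      have e7 : (m * τ ^ 2 / 2) * y ≤ (m * τ ^ 2 / 2) * (yR 4 (fun k => ω * l k)).re :=
        mul_le_mul_of_nonneg_left hYt (by positivity)
      linarith
    · rw [hE2, ← Complex.exp_add]
      congr 1
      unfold sR yR
      push_cast
      field_simp
      ring
  -- pointwise bounds
  have hpt : ∀ τ : ℝ, 0 ≤ τ → τ ≤ ρ →
      ‖∏ k ∈ Finset.univ.filter (fun k => ¬ 4 < ‖ω * l k‖), (1 - (τ : ℂ) * (ω * l k)) -
        Complex.exp (-((m * τ : ℝ) * sR 4 (fun k => ω * l k)))‖ ≤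
        m * τ ^ 2 * 4 * Real.exp (-(m * τ * ((1 + 1 / 2) / 2 * (sR 4 (fun k => ω * l k)).re))) := by
    intro τ hτ0 hτ1
    obtain ⟨ζ, z1, z2, z3⟩ := hTR τ hτ0 hτ1
    have hz0 : ζ.re ≤ 0 := by
      have : 0 ≤ m * τ ^ 2 * y / 4 := by positivity
      linarith
    have e1 : ∏ k ∈ Finset.univ.filter (fun k => ¬ 4 < ‖ω * l k‖), (1 - (τ : ℂ) * (ω * l k)) -
        Complex.exp (-((m * τ : ℝ) * sR 4 (fun k => ω * l k))) =
        Complex.exp (-((m * τ : ℝ) * sR 4 (fun k => ω * l k))) * (Complex.exp ζ - 1) := by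
      rw [z3]; ring
    have e2 : ‖Complex.exp (-((m * τ : ℝ) * sR 4 (fun k => ω * l k)))‖ = Real.exp (-(m * τ * x)) := by
      rw [Complex.norm_exp, Complex.neg_re, Complex.re_ofReal_mul, hreS]
    rw [e1, norm_mul, e2, hreS]
    have e3 : Real.exp (-(m * τ * x)) ≤ Real.exp (-(m * τ * ((1 + 1 / 2) / 2 * x))) := by
      refine Real.exp_le_exp.2 (neg_le_neg ?_)
      refine mul_le_mul_of_nonneg_left ?_ (by positivity)
      linarith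
    have e4 : ‖Complex.exp ζ - 1‖ ≤ m * τ ^ 2 * 4 := by
      refine (s4_exp ζ hz0).trans (z1.trans (le_of_eq ?_))
      ring
    calc Real.exp (-(m * τ * x)) * ‖Complex.exp ζ - 1‖
        ≤ Real.exp (-(m * τ * ((1 + 1 / 2) / 2 * x))) * (m * τ ^ 2 * 4) :=
          mul_le_mul e3 e4 (norm_nonneg _) (Real.exp_pos _).le
      _ = _ := by ring
  -- the lower bound
  have hLB := h3 m (fun k => ω * l k) 4 (1 / 2) ρ hm1 (by norm_num) (by norm_num) (by norm_num) hρ0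
    (by rw [hnS]; exact hS1) (by rw [hreS]; exact hx0) (by
      rw [hbB, hreS]
      have e1 : 4 / 3 * a * (sR 4 l).re ≤ 4 / 3 * a * S :=
        mul_le_mul_of_nonneg_left hreS' (by positivity)
      have e2 : 4 / 3 * a ≤ 1 / 4 := by linarith
      have e3 : 4 / 3 * a * S ≤ 1 / 4 * S := mul_le_mul_of_nonneg_right e2 hS0.le
      linarith)
    hpt
  rw [hnS, hreS] at hLB
  -- estimates
  obtain ⟨ν, hν⟩ : ∃ ν : ℝ, ν = (1 - 1 / 2) / 2 * x := ⟨_, rfl⟩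
  rw [← hν] at hLB
  have hν1 : 1 / 8 * S ≤ ν := by
    rw [hν]
    linarith
  have hν00 : 0 < 1 / 8 * S := by positivity
  have hν0 : 0 < ν := lt_of_lt_of_le hν00 hν1
  have hmS : 32768 ≤ m * S ^ 2 := by
    have h5 : (182 : ℝ) ^ 2 ≤ (√(m : ℝ) * S) ^ 2 := pow_le_pow_left₀ (by norm_num) hKs 2
    rw [mul_pow, hsm] at h5
    linarith
  have hA2 : 2 * 4 / (m * ν ^ 3) ≤ 1 / (8 * S) := by
    rw [div_le_div_iff₀ (by positivity) (by positivity)]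
    have h5 : (1 / 8 * S) ^ 3 ≤ ν ^ 3 := pow_le_pow_left₀ hν00.le hν1 3
    have h6 : m * (1 / 8 * S) ^ 3 ≤ m * ν ^ 3 := mul_le_mul_of_nonneg_left h5 hm0.le
    have h7 : m * (1 / 8 * S) ^ 3 = (m * S ^ 2) * (S / 512) := by ring
    have h8 : 32768 * (S / 512) ≤ (m * S ^ 2) * (S / 512) :=
      mul_le_mul_of_nonneg_right hmS (by positivity)
    linarith
  have hA3 : 1 / ν * Real.exp (-(m * ρ * ν)) ≤ 1 / (8 * S) := by
    have h5 : 1 / ν ≤ 1 / (1 / 8 * S) := one_div_le_one_div_of_le hν00 hν1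
    have h6 : Real.exp (-(m * ρ * ν)) ≤ 1 / 64 := by
      refine le_trans (Real.exp_le_exp.2 (neg_le_neg ?_)) hN1.le
      have h7 : √(m : ℝ) * 182 ≤ m * S := by
        have h8 := mul_le_mul_of_nonneg_left hKs hsm0.le
        calc √(m : ℝ) * 182 ≤ √(m : ℝ) * (√(m : ℝ) * S) := h8
          _ = √(m : ℝ) ^ 2 * S := by ring
          _ = m * S := by rw [hsm]
      have h9 : m * ρ * (1 / 8 * S) ≤ m * ρ * ν :=
        mul_le_mul_of_nonneg_left hν1 (by positivity)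
      refine le_trans ?_ h9
      have h10 := mul_le_mul_of_nonneg_left h7 (by positivity : 0 ≤ ρ / 8)
      calc ρ * 182 / 8 * √(m : ℝ) = ρ / 8 * (√(m : ℝ) * 182) := by ring
        _ ≤ ρ / 8 * (m * S) := h10
        _ = _ := by ring
    calc 1 / ν * Real.exp (-(m * ρ * ν)) ≤ 1 / (1 / 8 * S) * (1 / 64) :=
          mul_le_mul h5 h6 (Real.exp_pos _).le (by positivity)
      _ = 1 / (8 * S) := by
          field_simp
          norm_num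
  have hlow : 1 / 4 ≤ m * ‖∫ τ in (0:ℝ)..ρ, ∏ k, (1 - (τ : ℂ) * (ω * l k))‖ := by
    refine le_trans ?_ hLB
    have h5 : (1 - 1 / 2) / S = 4 * (1 / (8 * S)) := by
      field_simp
      norm_num
    have h6 : 1 / 4 ≤ 2 * (1 / (8 * S)) := by
      have h7 : 2 * (1 / (8 * S)) = 1 / 4 / S := by
        field_simp
        norm_num
      rw [h7, le_div_iff₀ hS0]
      linarith
    rw [h5]
    linarith
  -- the upper bound
  have hup := hH.ep ω ρ hω hρ0 hρ1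
  rw [← s4_fil 4 l hω] at hup
  have hprod : ∏ k ∈ Finset.univ.filter (fun k => ¬ 4 < ‖ω * l k‖), ‖1 - (ρ : ℂ) * (ω * l k)‖ ≤
      Real.exp (-(m * ρ ^ 2 * y / 4)) := by
    obtain ⟨ζ, z1, z2, z3⟩ := hTR ρ hρ0.le le_rfl
    rw [← norm_prod, z3, norm_mul, Complex.norm_exp, Complex.norm_exp, Complex.neg_re,
      Complex.re_ofReal_mul, hreS, ← Real.exp_add]
    refine Real.exp_le_exp.2 ?_
    have : 0 ≤ m * ρ * x := by positivity
    linarith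
  have hq2 : 72 * ∑ k, (‖l k‖ - ‖1 - (a : ℂ) * l k‖) ≤ m * (ρ ^ 2 * y / 8) := by
    have e1 : 2 * a * m * S ≤ 2 * a * m * 1 := mul_le_mul_of_nonneg_left hS1 (by positivity)
    have e2 : 144 * a ≤ ρ ^ 2 * y / 8 := by linarith
    have e3 : m * (144 * a) ≤ m * (ρ ^ 2 * y / 8) := mul_le_mul_of_nonneg_left e2 hm0.le
    linarith
  have hfin : m * ‖∫ τ in (0:ℝ)..ρ, ∏ k, (1 - (τ : ℂ) * (ω * l k))‖ ≤
      3 * Real.exp (-(ρ ^ 2 * y / 8 * (m : ℝ))) := by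
    have h5 : 3 / ((m : ℝ) + 1) * Real.exp (72 * ∑ k, (‖l k‖ - ‖1 - (a : ℂ) * l k‖)) *
        ∏ k ∈ Finset.univ.filter (fun k => ¬ 4 < ‖ω * l k‖), ‖1 - (ρ : ℂ) * (ω * l k)‖ ≤
        3 / ((m : ℝ) + 1) * Real.exp (72 * ∑ k, (‖l k‖ - ‖1 - (a : ℂ) * l k‖)) *
          Real.exp (-(m * ρ ^ 2 * y / 4)) :=
      mul_le_mul_of_nonneg_left hprod (by positivity)
    have h6 : Real.exp (72 * ∑ k, (‖l k‖ - ‖1 - (a : ℂ) * l k‖)) * Real.exp (-(m * ρ ^ 2 * y / 4)) ≤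
        Real.exp (-(ρ ^ 2 * y / 8 * (m : ℝ))) := by
      rw [← Real.exp_add]
      refine Real.exp_le_exp.2 ?_
      linarith
    have h8 : m * (3 / ((m : ℝ) + 1)) ≤ 3 := by
      rw [mul_div_assoc', div_le_iff₀ (by positivity)]
      linarith
    calc m * ‖∫ τ in (0:ℝ)..ρ, ∏ k, (1 - (τ : ℂ) * (ω * l k))‖ ≤
          m * (3 / ((m : ℝ) + 1) * Real.exp (72 * ∑ k, (‖l k‖ - ‖1 - (a : ℂ) * l k‖)) *
          Real.exp (-(m * ρ ^ 2 * y / 4))) := mul_le_mul_of_nonneg_left (hup.trans h5) hm0.le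
      _ = (m * (3 / ((m : ℝ) + 1))) * (Real.exp (72 * ∑ k, (‖l k‖ - ‖1 - (a : ℂ) * l k‖)) *
          Real.exp (-(m * ρ ^ 2 * y / 4))) := by ring
      _ ≤ 3 * Real.exp (-(ρ ^ 2 * y / 8 * (m : ℝ))) :=
          mul_le_mul h8 h6 (by positivity) (by norm_num)
  linarith

end Pool.Agent.H874.BV
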